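import Pool.Agent.VMX.StmtsF

/-! Squad VMX, row THR. -/

set_option autoImplicit false

open Matrix Filter Topology

namespace Pool.Agent.VMX.H10

open Pool.Agent.PFS Pool.Agent.PFJ Pool.Agent.NBT

theorem thr_top {n : ℕ} {C : Set (V n)} (h : AtfStmt) (hC : PCone C) {H : V n →ₗ[ℝ] V n} {l0 : ℝ}
    {x : V n} {ψ : V n →ₗ[ℝ] ℝ} (hA : Atr C ⊤ H l0 x ψ) {r : ℕ} {q : Fin r → V n}
    {ν : Fin r → ℝ} (hν : ∀ i, 0 < ν i) (hq0 : ∀ i, q i ≠ 0) (hqc : ∀ i, q i ∈ closure C)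
    (hH : ∀ i, H (q i) = ν i • q i) (hs : ∑ i, q i ∈ C) :
    ∃ i, ν i = l0 ∧ ∃ α : ℝ, 0 < α ∧ q i = α • x := by
  obtain ⟨-, h2, -, -, h5, -⟩ := h n C hC ⊤ H l0 x ψ hA
  have h6 : ∃ i, ν i = l0 := by
    by_contra hcon
    push Not at hcon
    have h7 : ∀ i, ψ (q i) = 0 := by
      intro i
      obtain ⟨h8, h9⟩ := h5 (q i) Submodule.mem_top (hq0 i) (ν i) (hν i) (hH i)
      exact h9 (lt_of_le_of_ne h8 (hcon i))
    obtain ⟨M, hM, hMx⟩ := hC.absorb hs x
    have h8 := hA.nn _ Submodule.mem_top (subset_closure hMx)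
    rw [map_sub, map_smul, map_sum, Finset.sum_eq_zero fun i _ => h7 i, smul_zero, hA.one] at h8
    linarith
  obtain ⟨i, hi⟩ := h6
  have h7 := h2 (q i) Submodule.mem_top (by rw [hH i, hi])
  refine ⟨i, hi, ψ (q i), ?_, h7⟩
  refine lt_of_le_of_ne (hA.nn _ Submodule.mem_top (hqc i)) fun h0 => hq0 i ?_
  rw [h7, ← h0, zero_smul]

theorem thr (hF : AtfStmt) : ThrStmt := by
  intro n C Γ hC g hg s la μ a b ψ ψ' hs hμ hμla ha hb hA hB hab r lam q hq hP
  have hul := hC.hul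
  have hqc : ∀ i, q i ∈ closure C := fun i => hul.lamCl _ (hP.2 i)
  have hq0 : ∀ i, q i ≠ 0 := fun i => hul.lamNe _ (hP.2 i)
  have hsum : ∑ i, q i ∈ C := hP.1.sum_mem
  obtain ⟨i0, hi0, α, hα, hqi⟩ := thr_top hF hC.toPCone hA (fun i => (hq i).1) hq0 hqc
    (fun i => (hq i).2.2) hsum
  have hinv : ∀ i, sA s⁻¹ g⁻¹ (q i) = (lam i)⁻¹ • q i := by
    intro i
    have h1 : s • act g (q i) = lam i • q i := (hq i).2.2
    have h2 : lam i ≠ 0 := (hq i).1.ne'
    have h3 : act g⁻¹ (s • act g (q i)) = act g⁻¹ (lam i • q i) := by rw [h1]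
    rw [CC.act_smul, CC.act_inv_act, CC.act_smul] at h3
    rw [sA_apply]
    have h4 : act g⁻¹ (q i) = (lam i)⁻¹ • (s • q i) := by
      rw [h3, smul_smul, inv_mul_cancel₀ h2, one_smul]
    rw [h4, smul_comm s⁻¹, smul_smul s⁻¹, inv_mul_cancel₀ hs.ne', one_smul]
  obtain ⟨j0, hj0, β, hβ, hqj⟩ := thr_top hF hC.toPCone hB
    (fun i => inv_pos.2 (hq i).1) hq0 hqc hinv hsum
  have hj1 : lam j0 = μ := inv_injective hj0
  have hne : i0 ≠ j0 := by
    rintro rfl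
    rw [hi0] at hj1
    exact hμla.ne hj1.symm
  by_contra hr
  have hr2 : r = 2 := by
    have h1 := i0.2
    have h2 := j0.2
    have h3 : i0.1 ≠ j0.1 := fun h => hne (Fin.ext h)
    omega
  subst hr2
  have hsum2 : q i0 + q j0 ∈ C := by
    have h1 : ∑ i, q i = q i0 + q j0 := by
      rw [Fin.sum_univ_two]
      have h3 : i0.1 ≠ j0.1 := fun h => hne (Fin.ext h)
      have h4 := i0.2
      have h5 := j0.2
      have h6 : (i0.1 = 0 ∧ j0.1 = 1) ∨ (i0.1 = 1 ∧ j0.1 = 0) := by omega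
      rcases h6 with ⟨h6, h7⟩ | ⟨h6, h7⟩
      · have e1 : i0 = 0 := Fin.ext h6
        have e2 : j0 = 1 := Fin.ext h7
        rw [e1, e2]
      · have e1 : i0 = 1 := Fin.ext h6
        have e2 : j0 = 0 := Fin.ext h7
        rw [e1, e2, add_comm]
    rw [← h1]
    exact hsum
  rw [hqi, hqj] at hsum2
  have hac := hul.lamCl _ ha
  have hbc := hul.lamCl _ hb
  apply hab
  have hm : 0 < max α β := lt_of_lt_of_le hα (le_max_left _ _)
  have h1 : α • a + β • b + ((max α β - α) • a + (max α β - β) • b) ∈ C := by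
    refine hC.toPCone.add_cl hsum2 (hC.toPCone.cl_add ?_ ?_)
    · exact hC.toPCone.cl_smul hac (sub_nonneg.2 (le_max_left _ _))
    · exact hC.toPCone.cl_smul hbc (sub_nonneg.2 (le_max_right _ _))
  have h2 := hC.smul _ h1 (max α β)⁻¹ (inv_pos.2 hm)
  have h3 : (max α β)⁻¹ • (α • a + β • b + ((max α β - α) • a + (max α β - β) • b)) = a + b := by
    have h4 : α • a + β • b + ((max α β - α) • a + (max α β - β) • b) =
        max α β • (a + b) := by
      rw [sub_smul, sub_smul, smul_add]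
      abel
    rw [h4, smul_smul, inv_mul_cancel₀ hm.ne', one_smul]
  rw [← h3]
  exact h2

end Pool.Agent.VMX.H10
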